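import Mathlib

open Set

namespace Pool.Agent.Lib.MP_250825_gt

universe u

/-- A Tychonoff space `X` is a p-space (Arhangel'skii): there is a sequence `γ` of families of open
subsets of the Stone–Čech compactification `StoneCech X`, each covering (the image of) `X`, such
that `⋂ n, St(x, γ n) ⊆ X` for each `x ∈ X`. -/
def IsPSpace (X : Type u) [TopologicalSpace X] : Prop :=
  T35Space X ∧ ∃ γ : ℕ → Set (Set (StoneCech X)),
    (∀ n, ∀ G ∈ γ n, IsOpen G) ∧
    (∀ n, range (stoneCechUnit : X → StoneCech X) ⊆ ⋃₀ γ n) ∧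
    ∀ x : X, (⋂ n, ⋃₀ {G ∈ γ n | stoneCechUnit x ∈ G}) ⊆ range (stoneCechUnit : X → StoneCech X)

end Pool.Agent.Lib.MP_250825_gt
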