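import Mathlib
import Pool.Agent.Lib.MP_250825_gt.Defs

section

open Set Filter Topology

namespace Pool.Agent.Lib.MP_250825_gt

universe u v

/-- internal form of the p-space property, for a subset `S` of a compact Hausdorff space -/
def PropP {Y : Type v} [TopologicalSpace Y] (S : Set Y) : Prop :=
  ∃ γ : ℕ → Set (Set Y), (∀ n, ∀ G ∈ γ n, IsOpen G) ∧ (∀ n, S ⊆ ⋃₀ γ n) ∧
    ∀ x ∈ S, ∀ y ∈ closure S, (∀ n, ∃ G ∈ γ n, x ∈ G ∧ y ∈ G) → y ∈ S

theorem propP_of_isPSpace {Y : Type v} [TopologicalSpace Y] [T2Space Y] [CompactSpace Y]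
    (S : Set Y) (h : IsPSpace S) : PropP S := by
  obtain ⟨-, γ, hopen, hcov, hstar⟩ := h
  have hi : Continuous (Subtype.val : S → Y) := continuous_subtype_val
  set q : StoneCech S → Y := stoneCechExtend hi with hq
  have hqc : Continuous q := continuous_stoneCechExtend hi
  have hqu : ∀ s : S, q (stoneCechUnit s) = s := fun s => by
    have := stoneCechExtend_extends hi
    exact congrFun this s
  -- points over `S`
  have key : ∀ ξ : StoneCech S, ∀ h : q ξ ∈ S, ξ = stoneCechUnit (⟨q ξ, h⟩ : S) := by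
    intro ξ h
    by_contra hne
    obtain ⟨U, V, hU, hV, hξU, hxV, hUV⟩ := t2_separation hne
    have hV' : IsOpen ((stoneCechUnit : S → StoneCech S) ⁻¹' V) :=
      hV.preimage continuous_stoneCechUnit
    obtain ⟨W, hW, hWV⟩ := isOpen_induced_iff.1 hV'
    have hopen2 : IsOpen (q ⁻¹' W ∩ U) := (hW.preimage hqc).inter hU
    have hmem : ξ ∈ q ⁻¹' W ∩ U := by
      refine ⟨?_, hξU⟩
      have : (⟨q ξ, h⟩ : S) ∈ Subtype.val ⁻¹' W := by
        rw [hWV]; exact hxV
      exact this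
    obtain ⟨s, hs⟩ := denseRange_stoneCechUnit.exists_mem_open hopen2 ⟨ξ, hmem⟩
    have h1 : s ∈ (Subtype.val : S → Y) ⁻¹' W := by
      have := hs.1
      simp only [mem_preimage, hqu] at this
      exact this
    rw [hWV] at h1
    exact Set.disjoint_left.1 hUV hs.2 h1
  have hrange : closure S ⊆ range q := by
    apply closure_minimal
    · intro s hs
      exact ⟨stoneCechUnit ⟨s, hs⟩, hqu _⟩
    · exact (isCompact_range hqc).isClosed
  refine ⟨fun n => {W | ∃ G ∈ γ n, W = (q '' Gᶜ)ᶜ}, ?_, ?_, ?_⟩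
  · rintro n W ⟨G, hG, rfl⟩
    exact (((hopen n G hG).isClosed_compl.isCompact).image hqc).isClosed.isOpen_compl
  · intro n x hx
    obtain ⟨G, hG, hxG⟩ := hcov n ⟨⟨x, hx⟩, rfl⟩
    refine ⟨_, ⟨G, hG, rfl⟩, ?_⟩
    rintro ⟨ξ, hξ, rfl⟩
    apply hξ
    rw [key ξ hx]
    exact hxG
  · intro x hx y hy hxy
    obtain ⟨ξ, rfl⟩ := hrange hy
    have : ξ ∈ range (stoneCechUnit : S → StoneCech S) := by
      apply hstar ⟨x, hx⟩
      rw [mem_iInter]
      intro n
      obtain ⟨_, ⟨G, hG, rfl⟩, hxG, hyG⟩ := hxy n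
      refine ⟨G, ⟨hG, ?_⟩, ?_⟩
      · by_contra hcon
        exact hxG ⟨_, hcon, hqu _⟩
      · by_contra hcon
        exact hyG ⟨_, hcon, rfl⟩
    obtain ⟨s, rfl⟩ := this
    rw [hqu]
    exact s.2

end Pool.Agent.Lib.MP_250825_gt
end

section

open Set Filter Topology

namespace Pool.Agent.Lib.MP_250825_gt

universe u v

variable {L : Type u} {Y : Type v} [LinearOrder L] [TopologicalSpace L] [OrderTopology L]

theorem isOpen_occ {O : Set L} (hO : IsOpen O) (t : L) :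
    IsOpen (O.ordConnectedComponent t) := by
  rw [isOpen_iff_mem_nhds]
  intro s hs
  have h1 : s ∈ O := ordConnectedComponent_subset hs
  have h2 := ordConnectedComponent_mem_nhds.2 (hO.mem_nhds h1)
  rwa [← ordConnectedComponent_eq hs] at h2

/-- in a connected ordered space, a map into a `T1` space which is not constant, is not constant
on some interval inside the preimage of a given nonempty open proper subset -/
theorem exists_interval [PreconnectedSpace L] [TopologicalSpace Y] [T1Space Y] {f : L → Y}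
    (hf : Continuous f) (hs : Function.Surjective f) {U : Set Y} (hU : IsOpen U)
    (hne : U.Nonempty) (hun : U ≠ univ) :
    ∃ a b : L, uIcc a b ⊆ f ⁻¹' U ∧ f a ≠ f b := by
  obtain ⟨y, hy⟩ := hne
  obtain ⟨t, rfl⟩ := hs y
  have ht : t ∈ f ⁻¹' U := hy
  by_contra hcon
  push Not at hcon
  have hUo : IsOpen (f ⁻¹' U) := hU.preimage hf
  have hclopen : IsClopen ((f ⁻¹' U).ordConnectedComponent t) := by
    refine ⟨?_, isOpen_occ hUo t⟩
    rw [← closure_subset_iff_isClosed]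
    intro s hs
    have h1 : f s = f t := by
      have : closure ((f ⁻¹' U).ordConnectedComponent t) ⊆ f ⁻¹' {f t} := by
        apply closure_minimal
        · intro r hr
          exact (hcon t r hr).symm
        · exact isClosed_singleton.preimage hf
      exact this hs
    have h2 : s ∈ f ⁻¹' U := by
      simp only [mem_preimage, h1]; exact ht
    have h3 := ordConnectedComponent_mem_nhds.2 (hUo.mem_nhds h2)
    rw [mem_closure_iff_nhds] at hs
    obtain ⟨r, hr1, hr2⟩ := hs _ h3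
    have e1 := ordConnectedComponent_eq hr1
    have e2 := ordConnectedComponent_eq hr2
    rw [e2, ← e1]
    exact self_mem_ordConnectedComponent.2 h2
  have huniv := hclopen.eq_univ ⟨t, self_mem_ordConnectedComponent.2 ht⟩
  apply hun
  rw [eq_univ_iff_forall]
  intro y
  obtain ⟨s, rfl⟩ := hs y
  have : s ∈ (f ⁻¹' U).ordConnectedComponent t := by rw [huniv]; trivial
  have h4 : s ∈ f ⁻¹' U := ordConnectedComponent_subset this
  exact h4

theorem ccc_image [CompactSpace L] [PreconnectedSpace L] [TopologicalSpace Y] [T2Space Y]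
    {f : L → Y} (hf : Continuous f) (hs : Function.Surjective f)
    (hP : ∀ S : Set Y, PropP S) (𝒰 : Set (Set Y)) (hopen : ∀ U ∈ 𝒰, IsOpen U)
    (hne : ∀ U ∈ 𝒰, U.Nonempty) (hdisj : ∀ U ∈ 𝒰, ∀ V ∈ 𝒰, (U ∩ V).Nonempty → U = V) :
    𝒰.Countable := by
  classical
  by_cases hun : univ ∈ 𝒰
  · refine (countable_singleton (univ : Set Y)).mono ?_
    intro V hV
    refine (hdisj univ hun V hV ?_).symm
    rw [univ_inter]; exact hne V hV
  have hex : ∀ U : 𝒰, ∃ p : L × L, uIcc p.1 p.2 ⊆ f ⁻¹' (U : Set Y) ∧ f p.1 ≠ f p.2 := by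
    rintro ⟨U, hU⟩
    obtain ⟨a, b, h1, h2⟩ := exists_interval hf hs (hopen U hU) (hne U hU)
      (fun h => hun (h ▸ hU))
    exact ⟨(a, b), h1, h2⟩
  choose p hp1 hp2 using hex
  have ha : ∀ U : 𝒰, f (p U).1 ∈ (U : Set Y) := fun U => hp1 U left_mem_uIcc
  have hb : ∀ U : 𝒰, f (p U).2 ∈ (U : Set Y) := fun U => hp1 U right_mem_uIcc
  have hdisj' : ∀ U V : 𝒰, ∀ y, y ∈ (U : Set Y) → y ∈ (V : Set Y) → U = V := by
    intro U V y h1 h2
    exact Subtype.ext (hdisj U U.2 V V.2 ⟨y, h1, h2⟩)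
  set S : Set Y := (range fun U : 𝒰 => f (p U).2)ᶜ with hS
  have haS : ∀ U : 𝒰, f (p U).1 ∈ S := by
    rintro U ⟨V, hV⟩
    simp only at hV
    have : V = U := hdisj' V U _ (hb V) (hV ▸ ha U)
    subst this
    exact hp2 _ hV.symm
  have hbS : ∀ U : 𝒰, f (p U).2 ∉ S := by
    intro U h
    exact h ⟨U, rfl⟩
  have hYc : PreconnectedSpace Y := by
    constructor
    rw [← hs.range_eq]
    exact isPreconnected_range hf
  have hbcl : ∀ U : 𝒰, f (p U).2 ∈ closure S := by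
    intro U
    rw [mem_closure_iff_nhds]
    intro W hW
    have hW' : W ∩ (U : Set Y) ∈ 𝓝 (f (p U).2) :=
      inter_mem hW ((hopen U U.2).mem_nhds (hb U))
    have hnt : Nontrivial Y := ⟨_, _, hp2 U⟩
    have : ConnectedSpace Y := { toNonempty := ⟨f (p U).1⟩ }
    have hNB : (𝓝[≠] (f (p U).2)).NeBot := by infer_instance
    have h3 : (W ∩ (U : Set Y)) ∩ {f (p U).2}ᶜ ∈ 𝓝[≠] (f (p U).2) := by
      rw [nhdsWithin]
      exact inter_mem_inf hW' (mem_principal_self _)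
    obtain ⟨z, ⟨hz1, hz2⟩, hz3⟩ := hNB.nonempty_of_mem h3
    refine ⟨z, hz1, ?_⟩
    rintro ⟨V, hV⟩
    simp only at hV
    have : V = U := hdisj' V U z (hV ▸ hb V) hz2
    subst this
    exact hz3 hV.symm
  obtain ⟨γ, hγo, hγc, hγ⟩ := hP S
  have hn : ∀ U : 𝒰, ∃ n, ∀ G ∈ γ n, f (p U).1 ∈ G → f (p U).2 ∉ G := by
    intro U
    by_contra hcon
    push Not at hcon
    exact hbS U (hγ _ (haS U) _ (hbcl U) hcon)
  choose n hn using hn
  have hfin : ∀ m, {U : 𝒰 | n U = m}.Finite := by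
    intro m
    by_contra hinf
    have hinf' : {U : 𝒰 | n U = m}.Infinite := hinf
    have hinf2 := hinf'.to_subtype
    -- cluster point
    obtain ⟨t, ht⟩ : ∃ t, MapClusterPt t (cofinite : Filter {U : 𝒰 | n U = m})
        (fun U => (p U.1).1) := exists_clusterPt_of_compactSpace _
    rw [mapClusterPt_iff_frequently] at ht
    have htS : f t ∈ S := by
      rintro ⟨V, hV⟩
      simp only at hV
      have hVt : f ⁻¹' (V : Set Y) ∈ 𝓝 t :=
        ((hopen V V.2).preimage hf).mem_nhds (by simp only [mem_preimage, ← hV]; exact hb V)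
      have := ht _ hVt
      rw [frequently_cofinite_iff_infinite] at this
      apply this
      apply Set.Subsingleton.finite
      intro U hU U' hU'
      have e1 : U.1 = V := hdisj' _ _ _ (ha U.1) hU
      have e2 : U'.1 = V := hdisj' _ _ _ (ha U'.1) hU'
      exact Subtype.ext (e1.trans e2.symm)
    obtain ⟨G, hG, htG⟩ := hγc m htS
    have hJ : (f ⁻¹' G).ordConnectedComponent t ∈ 𝓝 t :=
      ordConnectedComponent_mem_nhds.2 (((hγo m G hG).preimage hf).mem_nhds htG)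
    set J := (f ⁻¹' G).ordConnectedComponent t with hJdef
    have hJo : J.OrdConnected := by rw [hJdef]; infer_instance
    have hinf3 := ht _ hJ
    rw [frequently_cofinite_iff_infinite] at hinf3
    have hnotin : ∀ U : {U : 𝒰 | n U = m}, (p U.1).1 ∈ J → (p U.1).2 ∉ J := by
      intro U hU hU'
      have h1 : (p U.1).1 ∈ f ⁻¹' G := ordConnectedComponent_subset hU
      have h2 : (p U.1).2 ∈ f ⁻¹' G := ordConnectedComponent_subset hU'
      have hnU : n U.1 = m := U.2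
      exact hn U.1 G (by rw [hnU]; exact hG) h1 h2
    have hlt : {U : {U : 𝒰 | n U = m} | (p U.1).1 ∈ J ∧ (p U.1).1 < (p U.1).2}.Subsingleton := by
      have aux : ∀ U U' : {U : 𝒰 | n U = m}, (p U.1).1 ∈ J → (p U.1).1 < (p U.1).2 →
          (p U'.1).1 ∈ J → (p U.1).1 ≤ (p U'.1).1 → U = U' := by
        intro U U' hU hU' hV hle
        have h3 : (p U'.1).1 ≤ (p U.1).2 := by
          by_contra hcon
          push Not at hcon
          exact hnotin U hU (hJo.out hU hV ⟨hU'.le, hcon.le⟩)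
        have h4 : f (p U'.1).1 ∈ ((U.1 : 𝒰) : Set Y) := by
          apply hp1 U.1
          rw [uIcc_of_le hU'.le]
          exact ⟨hle, h3⟩
        exact Subtype.ext (hdisj' _ _ _ h4 (ha U'.1))
      intro U hU U' hU'
      rcases le_total (p U.1).1 (p U'.1).1 with h | h
      · exact aux U U' hU.1 hU.2 hU'.1 h
      · exact (aux U' U hU'.1 hU'.2 hU.1 h).symm
    have hgt : {U : {U : 𝒰 | n U = m} | (p U.1).1 ∈ J ∧ (p U.1).2 < (p U.1).1}.Subsingleton := by
      have aux : ∀ U U' : {U : 𝒰 | n U = m}, (p U.1).1 ∈ J → (p U.1).2 < (p U.1).1 →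
          (p U'.1).1 ∈ J → (p U'.1).1 ≤ (p U.1).1 → U = U' := by
        intro U U' hU hU' hV hle
        have h3 : (p U.1).2 ≤ (p U'.1).1 := by
          by_contra hcon
          push Not at hcon
          exact hnotin U hU (hJo.out hV hU ⟨hcon.le, hU'.le⟩)
        have h4 : f (p U'.1).1 ∈ ((U.1 : 𝒰) : Set Y) := by
          apply hp1 U.1
          rw [uIcc_of_ge hU'.le]
          exact ⟨h3, hle⟩
        exact Subtype.ext (hdisj' _ _ _ h4 (ha U'.1))
      intro U hU U' hU'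
      rcases le_total (p U.1).1 (p U'.1).1 with h | h
      · exact (aux U' U hU'.1 hU'.2 hU.1 h).symm
      · exact aux U U' hU.1 hU.2 hU'.1 h
    apply hinf3
    apply (hlt.finite.union hgt.finite).subset
    intro U hU
    have hU' : (p U.1).1 ∈ J := hU
    rcases lt_trichotomy (p U.1).1 (p U.1).2 with h | h | h
    · exact Or.inl ⟨hU', h⟩
    · exact absurd (congrArg f h) (hp2 U.1)
    · exact Or.inr ⟨hU', h⟩
  have : Countable 𝒰 := by
    rw [← countable_univ_iff]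
    have : (univ : Set 𝒰) = ⋃ m, {U : 𝒰 | n U = m} := by
      ext U; simp
    rw [this]
    exact countable_iUnion fun m => (hfin m).countable
  exact countable_coe_iff.1 this

end Pool.Agent.Lib.MP_250825_gt
end

section

open Set Filter Topology

namespace Pool.Agent.Lib.MP_250825_gt

universe u v

/-- a closed subset on which `f` is irreducible -/
theorem exists_irred {L : Type u} {Y : Type v} [TopologicalSpace L] [CompactSpace L]
    [TopologicalSpace Y] [T1Space Y] {f : L → Y} (hf : Continuous f)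
    (hs : Function.Surjective f) :
    ∃ E : Set L, IsClosed E ∧ f '' E = univ ∧
      ∀ E₀ ⊆ E, IsClosed E₀ → f '' E₀ = univ → E₀ = E := by
  have H : ∀ c ⊆ {E : Set L | IsClosed E ∧ f '' E = univ}, IsChain (· ⊆ ·) c → c.Nonempty →
      ∃ lb ∈ {E : Set L | IsClosed E ∧ f '' E = univ}, ∀ s ∈ c, lb ⊆ s := by
    intro c hc hchain hne
    refine ⟨⋂₀ c, ⟨isClosed_sInter fun E hE => (hc hE).1, ?_⟩, fun s hs => sInter_subset_of_mem hs⟩
    rw [eq_univ_iff_forall]
    intro y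
    have hyc : IsClosed (f ⁻¹' {y}) := isClosed_singleton.preimage hf
    have hnon : (⋂ E : c, (E : Set L) ∩ f ⁻¹' {y}).Nonempty := by
      have : Nonempty c := hne.to_subtype
      apply IsCompact.nonempty_iInter_of_directed_nonempty_isCompact_isClosed
      · intro A B
        rcases hchain.total A.2 B.2 with h | h
        · exact ⟨A, Subset.rfl, inter_subset_inter_left _ h⟩
        · exact ⟨B, inter_subset_inter_left _ h, Subset.rfl⟩
      · intro A
        have : y ∈ f '' (A : Set L) := by rw [(hc A.2).2]; trivial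
        obtain ⟨t, ht, rfl⟩ := this
        exact ⟨t, ht, rfl⟩
      · intro A
        exact ((hc A.2).1.inter hyc).isCompact
      · intro A
        exact (hc A.2).1.inter hyc
    obtain ⟨t, ht⟩ := hnon
    rw [mem_iInter] at ht
    refine ⟨t, ?_, ?_⟩
    · intro A hA
      exact (ht ⟨A, hA⟩).1
    · obtain ⟨A, hA⟩ := hne
      exact (ht ⟨A, hA⟩).2
  obtain ⟨E, -, hE⟩ := zorn_superset_nonempty {E : Set L | IsClosed E ∧ f '' E = univ} H univ
    ⟨isClosed_univ, by rw [image_univ, hs.range_eq]⟩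
  refine ⟨E, hE.prop.1, hE.prop.2, ?_⟩
  intro E₀ h1 h2 h3
  exact hE.eq_of_subset ⟨h2, h3⟩ h1

/-- relative countable chain condition for a subset of a space -/
def CCC {L : Type u} [TopologicalSpace L] (E : Set L) : Prop :=
  ∀ 𝒱 : Set (Set L), (∀ V ∈ 𝒱, IsOpen V) → (∀ V ∈ 𝒱, (V ∩ E).Nonempty) →
    (∀ V ∈ 𝒱, ∀ W ∈ 𝒱, (V ∩ W ∩ E).Nonempty → V = W) → 𝒱.Countable

theorem ccc_of_irred {L : Type u} {Y : Type v} [TopologicalSpace L] [CompactSpace L]
    [TopologicalSpace Y] [T2Space Y] {f : L → Y} (hf : Continuous f)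
    (hY : ∀ 𝒰 : Set (Set Y), (∀ U ∈ 𝒰, IsOpen U) → (∀ U ∈ 𝒰, U.Nonempty) →
      (∀ U ∈ 𝒰, ∀ V ∈ 𝒰, (U ∩ V).Nonempty → U = V) → 𝒰.Countable)
    {E : Set L} (hE : IsClosed E) (hEs : f '' E = univ)
    (hirr : ∀ E₀ ⊆ E, IsClosed E₀ → f '' E₀ = univ → E₀ = E) : CCC E := by
  intro 𝒱 hopen hne hdisj
  set φ : Set L → Set Y := fun V => (f '' (E \ V))ᶜ with hφ
  have hφo : ∀ V ∈ 𝒱, IsOpen (φ V) := by
    intro V hV
    exact (((hE.sdiff (hopen V hV)).isCompact.image hf).isClosed).isOpen_compl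
  have hφne : ∀ V ∈ 𝒱, (φ V).Nonempty := by
    intro V hV
    rw [nonempty_iff_ne_empty]
    intro h
    have h1 : f '' (E \ V) = univ := by
      rw [← compl_empty_iff]; exact h
    have h2 := hirr (E \ V) sdiff_subset (hE.sdiff (hopen V hV)) h1
    obtain ⟨t, ht1, ht2⟩ := hne V hV
    rw [← h2] at ht2
    exact ht2.2 ht1
  have hφi : ∀ V W, (φ V ∩ φ W).Nonempty → (V ∩ W ∩ E).Nonempty := by
    rintro V W ⟨y, hy1, hy2⟩
    have : y ∈ f '' E := by rw [hEs]; trivial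
    obtain ⟨e, he, rfl⟩ := this
    refine ⟨e, ⟨?_, ?_⟩, he⟩
    · by_contra h
      exact hy1 ⟨e, ⟨he, h⟩, rfl⟩
    · by_contra h
      exact hy2 ⟨e, ⟨he, h⟩, rfl⟩
  have hinj : InjOn φ 𝒱 := by
    intro V hV W hW hVW
    apply hdisj V hV W hW
    apply hφi
    rw [← hVW, inter_self]
    exact hφne V hV
  refine countable_of_injective_of_countable_image hinj ?_
  apply hY
  · rintro _ ⟨V, hV, rfl⟩; exact hφo V hV
  · rintro _ ⟨V, hV, rfl⟩; exact hφne V hV
  · rintro _ ⟨V, hV, rfl⟩ _ ⟨W, hW, rfl⟩ h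
    rw [hdisj V hV W hW (hφi V W h)]

section order
variable {L : Type u} [LinearOrder L] [TopologicalSpace L] [OrderTopology L]

/-- every subset of a ccc set has a countable cofinal subset -/
theorem exists_countable_cofinal {E : Set L} (hE : CCC E) {R : Set L} (hR : R ⊆ E) :
    ∃ C ⊆ R, C.Countable ∧ ∀ r ∈ R, ∃ c ∈ C, r ≤ c := by
  by_cases hmax : ∃ m ∈ R, ∀ r ∈ R, r ≤ m
  · obtain ⟨m, hm, hm'⟩ := hmax
    exact ⟨{m}, by simpa using hm, countable_singleton _, fun r hr => ⟨m, rfl, hm' r hr⟩⟩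
  push Not at hmax
  -- good pairs
  set P : Set (L × L) := {p | p.1 ∈ R ∧ p.2 ∈ R ∧ (Ioo p.1 p.2 ∩ R).Nonempty} with hP
  obtain ⟨M, hM⟩ := zorn_subset {M : Set (L × L) | M ⊆ P ∧
    ∀ p ∈ M, ∀ q ∈ M, (Ioo p.1 p.2 ∩ Ioo q.1 q.2 ∩ E).Nonempty → p = q} (by
      intro c hc hchain
      refine ⟨⋃₀ c, ⟨sUnion_subset fun s hs => (hc hs).1, ?_⟩, fun s hs => subset_sUnion_of_mem hs⟩
      rintro p ⟨s, hs, hps⟩ q ⟨t, ht, hqt⟩ hpq
      rcases hchain.total hs ht with h | h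
      · exact (hc ht).2 p (h hps) q hqt hpq
      · exact (hc hs).2 p hps q (h hqt) hpq)
  obtain ⟨⟨hMP, hMd⟩, hMmax⟩ := hM
  have hMc : M.Countable := by
    have hinj : InjOn (fun p : L × L => Ioo p.1 p.2) M := by
      intro p hp q hq hpq
      apply hMd p hp q hq
      simp only at hpq
      rw [← hpq, inter_self]
      obtain ⟨t, ht1, ht2⟩ := (hMP hp).2.2
      exact ⟨t, ht1, hR ht2⟩
    refine countable_of_injective_of_countable_image hinj ?_
    apply hE
    · rintro _ ⟨p, hp, rfl⟩; exact isOpen_Ioo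
    · rintro _ ⟨p, hp, rfl⟩
      obtain ⟨t, ht1, ht2⟩ := (hMP hp).2.2
      exact ⟨t, ht1, hR ht2⟩
    · rintro _ ⟨p, hp, rfl⟩ _ ⟨q, hq, rfl⟩ h
      simp only
      rw [hMd p hp q hq h]
  refine ⟨Prod.snd '' M, ?_, hMc.image _, ?_⟩
  · rintro _ ⟨p, hp, rfl⟩
    exact (hMP hp).2.1
  · intro r hr
    by_contra hcon
    push Not at hcon
    obtain ⟨r', hr', hrr'⟩ := hmax r hr
    obtain ⟨r'', hr'', hrr''⟩ := hmax r' hr'
    have hnew : insert (r, r'') M ∈ {M : Set (L × L) | M ⊆ P ∧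
        ∀ p ∈ M, ∀ q ∈ M, (Ioo p.1 p.2 ∩ Ioo q.1 q.2 ∩ E).Nonempty → p = q} := by
      refine ⟨insert_subset ⟨hr, hr'', ⟨r', ⟨hrr', hrr''⟩, hr'⟩⟩ hMP, ?_⟩
      intro p hp q hq hpq
      rw [mem_insert_iff] at hp hq
      rcases hp with rfl | hp <;> rcases hq with rfl | hq
      · rfl
      · exfalso
        obtain ⟨t, ⟨ht1, ht2⟩, -⟩ := hpq
        have := hcon q.2 ⟨q, hq, rfl⟩
        exact absurd (ht1.1.trans ht2.2) (not_lt.2 this.le)
      · exfalso
        obtain ⟨t, ⟨ht1, ht2⟩, -⟩ := hpq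
        have := hcon p.2 ⟨p, hp, rfl⟩
        exact absurd (ht2.1.trans ht1.2) (not_lt.2 this.le)
      · exact hMd p hp q hq hpq
    have := hMmax hnew (subset_insert _ _) (mem_insert _ _)
    have h2 := hcon r'' ⟨_, this, rfl⟩
    exact absurd (hrr'.trans hrr'') (not_lt.2 h2.le)

theorem exists_countable_coinitial {E : Set L} (hE : CCC E) {R : Set L} (hR : R ⊆ E) :
    ∃ C ⊆ R, C.Countable ∧ ∀ r ∈ R, ∃ c ∈ C, c ≤ r := by
  have hE' : CCC (L := Lᵒᵈ) E := hE
  exact exists_countable_cofinal (L := Lᵒᵈ) hE' hR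

/-- hereditary Lindelöf property for families of open sets -/
theorem exists_countable_subcover [CompactSpace L] {E : Set L} (hE : CCC E) (𝒥 : Set (Set L))
    (h𝒥 : ∀ J ∈ 𝒥, IsOpen J) :
    ∃ 𝒥' ⊆ 𝒥, 𝒥'.Countable ∧ E ∩ ⋃₀ 𝒥 ⊆ ⋃₀ 𝒥' := by
  classical
  set O := ⋃₀ 𝒥 with hOdef
  have hO : IsOpen O := isOpen_sUnion h𝒥
  set 𝒞 : Set (Set L) := (fun x => O.ordConnectedComponent x) '' (E ∩ O) with h𝒞
  have h𝒞c : 𝒞.Countable := by
    apply hE
    · rintro _ ⟨x, hx, rfl⟩; exact isOpen_occ hO x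
    · rintro _ ⟨x, hx, rfl⟩
      exact ⟨x, self_mem_ordConnectedComponent.2 hx.2, hx.1⟩
    · rintro _ ⟨x, hx, rfl⟩ _ ⟨y, hy, rfl⟩ ⟨z, ⟨hz1, hz2⟩, -⟩
      exact (ordConnectedComponent_eq hz1).trans (ordConnectedComponent_eq hz2).symm
  -- compact intervals inside `O` are finitely covered
  have hfin : ∀ p : L × L, Icc p.1 p.2 ⊆ O → ∃ 𝒯 ⊆ 𝒥, 𝒯.Finite ∧ Icc p.1 p.2 ⊆ ⋃₀ 𝒯 := by
    intro p hp
    have hK : IsCompact (Icc p.1 p.2) := isClosed_Icc.isCompact
    obtain ⟨t, ht1, ht2, ht3⟩ := hK.elim_finite_subcover_image (b := 𝒥) (c := id) h𝒥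
      (by rw [hOdef, sUnion_eq_biUnion] at hp; exact hp)
    exact ⟨t, ht1, ht2, by rw [sUnion_eq_biUnion]; exact ht3⟩
  choose! T hT1 hT2 hT3 using hfin
  have hC : ∀ C ∈ 𝒞, ∃ 𝒯 ⊆ 𝒥, 𝒯.Countable ∧ E ∩ C ⊆ ⋃₀ 𝒯 := by
    rintro C hC
    have hCord : C.OrdConnected := by
      obtain ⟨x, hx, rfl⟩ := hC
      simp only
      infer_instance
    have hCO : C ⊆ O := by
      obtain ⟨x, hx, rfl⟩ := hC
      exact ordConnectedComponent_subset
    obtain ⟨A, hA1, hA2, hA3⟩ := exists_countable_coinitial hE (R := E ∩ C) inter_subset_left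
    obtain ⟨B, hB1, hB2, hB3⟩ := exists_countable_cofinal hE (R := E ∩ C) inter_subset_left
    have hsub : ∀ p ∈ A ×ˢ B, Icc p.1 p.2 ⊆ O := by
      intro p hp
      exact (hCord.out (hA1 hp.1).2 (hB1 hp.2).2).trans hCO
    refine ⟨⋃ p ∈ A ×ˢ B, T p, ?_, ?_, ?_⟩
    · exact iUnion₂_subset fun p hp => hT1 p (hsub p hp)
    · exact (hA2.prod hB2).biUnion fun p hp => (hT2 p (hsub p hp)).countable
    · intro x hx
      obtain ⟨a, ha, hax⟩ := hA3 x hx
      obtain ⟨b, hb, hxb⟩ := hB3 x hx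
      have hp : (a, b) ∈ A ×ˢ B := ⟨ha, hb⟩
      obtain ⟨J, hJ, hxJ⟩ := hT3 (a, b) (hsub _ hp) ⟨hax, hxb⟩
      exact ⟨J, mem_biUnion hp hJ, hxJ⟩
  choose! F hF1 hF2 hF3 using hC
  refine ⟨⋃ C ∈ 𝒞, F C, iUnion₂_subset fun C hC => hF1 C hC,
    h𝒞c.biUnion fun C hC => hF2 C hC, ?_⟩
  rintro x ⟨hx1, hx2⟩
  have hC : O.ordConnectedComponent x ∈ 𝒞 := ⟨x, ⟨hx1, hx2⟩, rfl⟩
  obtain ⟨J, hJ, hxJ⟩ := hF3 _ hC ⟨hx1, self_mem_ordConnectedComponent.2 hx2⟩
  exact ⟨J, mem_biUnion hC hJ, hxJ⟩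

end order

end Pool.Agent.Lib.MP_250825_gt
end

section

open Set Filter Topology TopologicalSpace

namespace Pool.Agent.Lib.MP_250825_gt

universe u v

/-- a compact Hausdorff space with a countable network is metrizable -/
theorem metrizable_of_network {Y : Type v} [t : TopologicalSpace Y] [CompactSpace Y] [T2Space Y]
    (𝒩 : Set (Set Y)) (h𝒩 : 𝒩.Countable)
    (hnet : ∀ y : Y, ∀ W : Set Y, IsOpen W → y ∈ W → ∃ N ∈ 𝒩, y ∈ N ∧ N ⊆ W) :
    MetrizableSpace Y := by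
  classical
  set P : Set (Set Y × Set Y) := {p | p.1 ∈ 𝒩 ∧ p.2 ∈ 𝒩 ∧
    ∃ U V : Set Y, IsOpen U ∧ IsOpen V ∧ p.1 ⊆ U ∧ p.2 ⊆ V ∧ Disjoint U V} with hP
  have hPsub : P ⊆ 𝒩 ×ˢ 𝒩 := by
    intro p hp
    exact ⟨hp.1, hp.2.1⟩
  have hPc : P.Countable := (h𝒩.prod h𝒩).mono hPsub
  have hex : ∀ p : Set Y × Set Y, p ∈ P → ∃ U V : Set Y, IsOpen U ∧ IsOpen V ∧ p.1 ⊆ U ∧
    p.2 ⊆ V ∧ Disjoint U V := fun p hp => hp.2.2
  choose! U V hU hV hpU hpV hUV using hex
  set B : Set (Set Y) := U '' P ∪ V '' P with hB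
  have hBc : B.Countable := (hPc.image _).union (hPc.image _)
  have hBo : ∀ b ∈ B, IsOpen b := by
    rintro b (⟨p, hp, rfl⟩ | ⟨p, hp, rfl⟩)
    · exact hU p hp
    · exact hV p hp
  have hsep : ∀ x y : Y, x ≠ y → ∃ b₁ ∈ B, ∃ b₂ ∈ B, x ∈ b₁ ∧ y ∈ b₂ ∧ Disjoint b₁ b₂ := by
    intro x y hxy
    obtain ⟨O₁, O₂, h1, h2, hx, hy, hd⟩ := t2_separation hxy
    obtain ⟨M, hM, hxM, hMO⟩ := hnet x O₁ h1 hx
    obtain ⟨N, hN, hyN, hNO⟩ := hnet y O₂ h2 hy
    have hp : (M, N) ∈ P := ⟨hM, hN, O₁, O₂, h1, h2, hMO, hNO, hd⟩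
    exact ⟨U (M, N), Or.inl ⟨_, hp, rfl⟩, V (M, N), Or.inr ⟨_, hp, rfl⟩, hpU _ hp hxM,
      hpV _ hp hyN, hUV _ hp⟩
  have hle : t ≤ generateFrom B := le_generateFrom hBo
  have hT2 : @T2Space Y (generateFrom B) := by
    refine @T2Space.mk Y (generateFrom B) ?_
    intro x y hxy
    obtain ⟨b₁, h1, b₂, h2, hx, hy, hd⟩ := hsep x y hxy
    exact ⟨b₁, b₂, isOpen_generateFrom_of_mem h1, isOpen_generateFrom_of_mem h2, hx, hy, hd⟩
  have heq : t = generateFrom B := by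
    apply le_antisymm hle
    -- every open set is open for the generated topology
    intro W hW
    have hWc : IsCompact Wᶜ := (hW.isClosed_compl).isCompact
    have h1 : @Continuous Y Y t (generateFrom B) id := continuous_id_iff_le.2 hle
    have h2 : @IsCompact Y (generateFrom B) (id '' Wᶜ) :=
      @IsCompact.image Y Y t (generateFrom B) Wᶜ id hWc h1
    rw [image_id] at h2
    have h3 : @IsClosed Y (generateFrom B) Wᶜ := @IsCompact.isClosed Y (generateFrom B) hT2 _ h2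
    rw [← compl_compl W]
    exact (@isOpen_compl_iff Y _ (generateFrom B)).2 h3
  have hsc : SecondCountableTopology Y := ⟨⟨B, hBc, heq⟩⟩
  exact metrizableSpace_of_t3_secondCountable Y

variable {L : Type u} {Y : Type v} [LinearOrder L] [TopologicalSpace L] [OrderTopology L]
  [CompactSpace L] [TopologicalSpace Y]

/-- left half of the network claim -/
theorem left_claim {f : L → Y} (hf : Continuous f) {E : Set L} (hE : IsClosed E) {D : Set L}
    (hD : ∀ a ∈ E, ∀ b ∈ E, a < b → Icc a b ∩ D = ∅ → f a = f b) {e : L} (he : e ∈ E)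
    (heD : e ∉ D) (hmin : ∃ d ∈ D, d < e) {W : Set Y} (hW : IsOpen W) (heW : f e ∈ W) :
    ∃ p ∈ D, p < e ∧ E ∩ Ioc p e ⊆ f ⁻¹' W := by
  by_cases hmax : ∃ m ∈ D, m < e ∧ ∀ d ∈ D, d < e → d ≤ m
  · obtain ⟨m, hm, hme, hm'⟩ := hmax
    refine ⟨m, hm, hme, ?_⟩
    rintro x ⟨hxE, hmx, hxe⟩
    rcases hxe.eq_or_lt with rfl | hxe
    · exact heW
    · have : f x = f e := by
        apply hD x hxE e he hxe
        rw [eq_empty_iff_forall_notMem]
        rintro d ⟨⟨hd1, hd2⟩, hd⟩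
        have hde : d < e := lt_of_le_of_ne hd2 (fun h => heD (h ▸ hd))
        exact absurd (hm' d hd hde) (not_le.2 (lt_of_lt_of_le hmx hd1))
      simp only [mem_preimage, this]; exact heW
  · push Not at hmax
    by_contra hcon
    push Not at hcon
    have hne : Nonempty {p : L // p ∈ D ∧ p < e} := by
      obtain ⟨d, hd, hde⟩ := hmin
      exact ⟨⟨d, hd, hde⟩⟩
    have hWc : IsClosed (f ⁻¹' W)ᶜ := (hW.preimage hf).isClosed_compl
    have hnon : (⋂ p : {p : L // p ∈ D ∧ p < e}, (E ∩ Icc p.1 e ∩ (f ⁻¹' W)ᶜ)).Nonempty := by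
      apply IsCompact.nonempty_iInter_of_directed_nonempty_isCompact_isClosed
      · intro p q
        rcases le_total p.1 q.1 with h | h
        · exact ⟨q, fun x hx => ⟨⟨hx.1.1, h.trans hx.1.2.1, hx.1.2.2⟩, hx.2⟩, Subset.rfl⟩
        · exact ⟨p, Subset.rfl, fun x hx => ⟨⟨hx.1.1, h.trans hx.1.2.1, hx.1.2.2⟩, hx.2⟩⟩
      · rintro ⟨p, hp, hpe⟩
        have := hcon p hp hpe
        rw [not_subset] at this
        obtain ⟨x, ⟨hxE, hx1, hx2⟩, hxW⟩ := this
        exact ⟨x, ⟨hxE, hx1.le, hx2⟩, hxW⟩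
      · intro p
        exact ((hE.inter isClosed_Icc).inter hWc).isCompact
      · intro p
        exact (hE.inter isClosed_Icc).inter hWc
    obtain ⟨x, hx⟩ := hnon
    rw [mem_iInter] at hx
    have hx0 := hx hne.some
    have hxE : x ∈ E := hx0.1.1
    have hxW : f x ∉ W := hx0.2
    have hxe : x < e := lt_of_le_of_ne hx0.1.2.2 (fun h => hxW (h ▸ heW))
    by_cases hxD : x ∈ D
    · obtain ⟨d, hd, hde, hdx⟩ := hmax x hxD hxe
      have := (hx ⟨d, hd, hde⟩).1.2.1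
      exact absurd this (not_le.2 hdx)
    · apply hxW
      have : f x = f e := by
        apply hD x hxE e he hxe
        rw [eq_empty_iff_forall_notMem]
        rintro d ⟨⟨hd1, hd2⟩, hd⟩
        have hde : d < e := lt_of_le_of_ne hd2 (fun h => heD (h ▸ hd))
        have h5 := (hx ⟨d, hd, hde⟩).1.2.1
        have : d = x := le_antisymm h5 hd1
        exact hxD (this ▸ hd)
      rw [this]; exact heW

theorem right_claim {f : L → Y} (hf : Continuous f) {E : Set L} (hE : IsClosed E) {D : Set L}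
    (hD : ∀ a ∈ E, ∀ b ∈ E, a < b → Icc a b ∩ D = ∅ → f a = f b) {e : L} (he : e ∈ E)
    (heD : e ∉ D) (hmax : ∃ d ∈ D, e < d) {W : Set Y} (hW : IsOpen W) (heW : f e ∈ W) :
    ∃ p ∈ D, e < p ∧ E ∩ Ico e p ⊆ f ⁻¹' W := by
  have hcomp : CompactSpace Lᵒᵈ := inferInstanceAs (CompactSpace L)
  have := left_claim (L := Lᵒᵈ) (f := fun x => f (OrderDual.ofDual x)) hf (E := E) hE (D := D)
    (fun a ha b hb hab h => (hD b hb a ha hab (by
      apply eq_empty_of_forall_notMem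
      rintro x ⟨⟨h1, h2⟩, h3⟩
      have h4 : (OrderDual.toDual x) ∈ (Icc a b ∩ D : Set Lᵒᵈ) := ⟨⟨h2, h1⟩, h3⟩
      rw [h] at h4
      exact h4)).symm) (e := e) he heD hmax hW heW
  obtain ⟨p, hp, hpe, h⟩ := this
  refine ⟨p, hp, hpe, ?_⟩
  rintro x ⟨hxE, hx1, hx2⟩
  exact h ⟨hxE, hx2, hx1⟩

theorem metrizable_of_countable [T2Space Y] {f : L → Y} (hf : Continuous f) {E : Set L}
    (hE : IsClosed E) (hEs : f '' E = univ) {D : Set L} (hDc : D.Countable)
    (hD : ∀ a ∈ E, ∀ b ∈ E, a < b → Icc a b ∩ D = ∅ → f a = f b) :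
    MetrizableSpace Y := by
  have hYc : CompactSpace Y := by
    constructor
    rw [← hEs]
    exact hE.isCompact.image hf
  rcases isEmpty_or_nonempty L with hL | hL
  · have : IsEmpty Y := by
      rw [isEmpty_iff]
      intro y
      have : y ∈ f '' E := by rw [hEs]; trivial
      obtain ⟨t, -, -⟩ := this
      exact hL.false t
    exact metrizable_of_network (∅ : Set (Set Y)) countable_empty (fun y => (this.false y).elim)
  obtain ⟨m, -, hm⟩ := isCompact_univ.exists_isLeast (univ_nonempty : (univ : Set L).Nonempty)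
  obtain ⟨M, -, hM⟩ := isCompact_univ.exists_isGreatest (univ_nonempty : (univ : Set L).Nonempty)
  set D' : Set L := insert m (insert M D) with hD'
  have hD'c : D'.Countable := (hDc.insert _).insert _
  have hD'p : ∀ a ∈ E, ∀ b ∈ E, a < b → Icc a b ∩ D' = ∅ → f a = f b := by
    intro a ha b hb hab h
    apply hD a ha b hb hab
    apply eq_empty_of_subset_empty
    rw [← h]
    exact inter_subset_inter_right _ ((subset_insert _ _).trans (subset_insert _ _))
  set 𝒩 : Set (Set Y) := (fun p : L × L => f '' (E ∩ Ioo p.1 p.2)) '' (D' ×ˢ D') ∪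
    (fun p : L => {f p}) '' D' with h𝒩
  refine metrizable_of_network 𝒩 (((hD'c.prod hD'c).image _).union (hD'c.image _)) ?_
  intro y W hW hy
  have : y ∈ f '' E := by rw [hEs]; trivial
  obtain ⟨e, he, rfl⟩ := this
  by_cases heD : e ∈ D'
  · exact ⟨{f e}, Or.inr ⟨e, heD, rfl⟩, rfl, singleton_subset_iff.2 hy⟩
  · have h1 : ∃ d ∈ D', d < e := ⟨m, mem_insert _ _, lt_of_le_of_ne (hm (mem_univ _))
      (fun h => heD (h ▸ mem_insert _ _))⟩
    have h2 : ∃ d ∈ D', e < d := ⟨M, mem_insert_of_mem _ (mem_insert _ _),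
      lt_of_le_of_ne (hM (mem_univ _))
      (fun h => heD (h ▸ mem_insert_of_mem _ (mem_insert _ _)))⟩
    obtain ⟨p, hp, hpe, hp'⟩ := left_claim hf hE hD'p he heD h1 hW hy
    obtain ⟨q, hq, heq, hq'⟩ := right_claim hf hE hD'p he heD h2 hW hy
    refine ⟨f '' (E ∩ Ioo p q), Or.inl ⟨(p, q), ⟨hp, hq⟩, rfl⟩, ⟨e, ⟨he, hpe, heq⟩, rfl⟩, ?_⟩
    rintro _ ⟨x, ⟨hxE, hx1, hx2⟩, rfl⟩
    rcases le_total x e with h | h
    · exact hp' ⟨hxE, hx1, h⟩
    · exact hq' ⟨hxE, h, hx2⟩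

end Pool.Agent.Lib.MP_250825_gt
end

section

open Set Filter Topology TopologicalSpace Cardinal

namespace Pool.Agent.Lib.MP_250825_gt

universe u v

/-- transfinite construction of length `ω₁` -/
theorem exists_omega1_seq {α : Type u} {R : Set α → α → Prop}
    (h : ∀ D : Set α, D.Countable → ∃ p, R D p) :
    ∃ F : (ℵ_ 1 : Cardinal.{0}).ord.ToType → α, ∀ i, R (F '' Iio i) (F i) := by
  classical
  have hne : Nonempty α := by
    obtain ⟨p, -⟩ := h ∅ countable_empty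
    exact ⟨p⟩
  choose! A hA using h
  set I := (ℵ_ 1 : Cardinal.{0}).ord.ToType with hI
  have wf : WellFounded (fun i j : I => i < j) := wellFounded_lt
  set G : ∀ i : I, (∀ j : I, j < i → α) → α := fun i rec =>
    A {p | ∃ j : I, ∃ hj : j < i, p = rec j hj} with hG
  set F : I → α := wf.fix G with hF
  have hFeq : ∀ i, F i = A (F '' Iio i) := by
    intro i
    have h1 : F i = A {p | ∃ j : I, ∃ _ : j < i, p = F j} := wf.fix_eq G i
    have h2 : {p | ∃ j : I, ∃ _ : j < i, p = F j} = F '' Iio i := by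
      ext p
      constructor
      · rintro ⟨j, hj, rfl⟩
        exact ⟨j, hj, rfl⟩
      · rintro ⟨j, hj, rfl⟩
        exact ⟨j, hj, rfl⟩
    rw [h1, h2]
  refine ⟨F, fun i => ?_⟩
  have hc : (Iio i).Countable := by
    rw [countable_iff_lt_aleph_one]
    exact mk_Iio_toType_ord_lt i
  have := hA (F '' Iio i) (hc.image F)
  rwa [← hFeq] at this

theorem not_countable_I : ¬ (Set.univ : Set (ℵ_ 1 : Cardinal.{0}).ord.ToType).Countable := by
  rw [countable_iff_lt_aleph_one, mk_univ, mk_ord_toType]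
  exact lt_irrefl _

theorem Iic_countable (i : (ℵ_ 1 : Cardinal.{0}).ord.ToType) : (Iic i).Countable := by
  have hc : (Iio i).Countable := by
    rw [countable_iff_lt_aleph_one]
    exact mk_Iio_toType_ord_lt i
  rw [← Iio_insert]
  exact hc.insert i

variable {L : Type u} {Y : Type v} [LinearOrder L] [TopologicalSpace L] [OrderTopology L]
  [CompactSpace L] [TopologicalSpace Y]

/-- Lemma S -/
theorem lemmaS {f : L → Y} (hf : Continuous f) {E : Set L} (hccc : CCC E) {S : Set Y}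
    (hS : PropP S) :
    ∃ D : Set L, D.Countable ∧ ∀ a ∈ E, ∀ b ∈ E, a < b → f a ∈ S → f b ∉ S →
      (Icc a b ∩ D).Nonempty := by
  classical
  obtain ⟨γ, hγo, hγc, hγ⟩ := hS
  -- the families
  set 𝒥 : ℕ → Set (Set L) := fun m => {J | IsOpen J ∧ J.OrdConnected ∧ ∃ G ∈ γ m, J ⊆ f ⁻¹' G}
    with h𝒥
  set 𝒥i : Set (Set L) := {J | IsOpen J ∧ J.OrdConnected ∧ J ⊆ f ⁻¹' (closure S)ᶜ} with h𝒥i
  have h1 := fun m => exists_countable_subcover hccc (𝒥 m) (fun J hJ => hJ.1)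
  choose K hK1 hK2 hK3 using h1
  obtain ⟨Ki, hKi1, hKi2, hKi3⟩ := exists_countable_subcover hccc 𝒥i (fun J hJ => hJ.1)
  set 𝒯 : Set (Set L) := (⋃ m, K m) ∪ Ki with h𝒯
  have h𝒯c : 𝒯.Countable := (countable_iUnion hK2).union hKi2
  refine ⟨⋃ J ∈ 𝒯, {d | IsLUB J d ∨ IsGLB J d}, ?_, ?_⟩
  · refine h𝒯c.biUnion fun J _ => ?_
    apply Set.Countable.union
    · exact (Set.Subsingleton.countable fun x hx y hy => IsLUB.unique hx hy)
    · exact (Set.Subsingleton.countable fun x hx y hy => IsGLB.unique hx hy)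
  · intro a ha b hb hab haS hbS
    have hLUB : ∀ J : Set L, J.Nonempty → ∃ d, IsLUB J d := by
      intro J hJ
      obtain ⟨d, -, hd⟩ := (isClosed_closure (s := J)).isCompact.exists_isLUB hJ.closure
      exact ⟨d, (isLUB_congr (upperBounds_closure J)).1 hd⟩
    have hGLB : ∀ J : Set L, J.Nonempty → ∃ d, IsGLB J d := by
      intro J hJ
      obtain ⟨d, -, hd⟩ := (isClosed_closure (s := J)).isCompact.exists_isGLB hJ.closure
      exact ⟨d, (isGLB_congr (lowerBounds_closure J)).1 hd⟩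
    by_cases hbcl : f b ∈ closure S
    · -- separated by some `γ m`
      have hm : ∃ m, ∀ G ∈ γ m, f a ∈ G → f b ∉ G := by
        by_contra hcon
        push Not at hcon
        exact hbS (hγ _ haS _ hbcl hcon)
      obtain ⟨m, hm⟩ := hm
      have hmem : a ∈ E ∩ ⋃₀ 𝒥 m := by
        refine ⟨ha, ?_⟩
        obtain ⟨G, hG, haG⟩ := hγc m haS
        have hGo : IsOpen (f ⁻¹' G) := (hγo m G hG).preimage hf
        exact ⟨(f ⁻¹' G).ordConnectedComponent a, ⟨isOpen_occ hGo a, inferInstance, G, hG,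
          ordConnectedComponent_subset⟩, self_mem_ordConnectedComponent.2 haG⟩
      obtain ⟨J, hJK, haJ⟩ := hK3 m hmem
      obtain ⟨hJo, hJc, G, hG, hJG⟩ := hK1 m hJK
      have hbJ : b ∉ J := fun hbJ => hm G hG (hJG haJ) (hJG hbJ)
      obtain ⟨d, hd⟩ := hLUB J ⟨a, haJ⟩
      refine ⟨d, ⟨hd.1 haJ, hd.2 ?_⟩, ?_⟩
      · intro x hx
        by_contra hbx
        push Not at hbx
        exact hbJ (hJc.out haJ hx ⟨hab.le, hbx.le⟩)
      · exact mem_biUnion (Or.inl (mem_iUnion.2 ⟨m, hJK⟩)) (Or.inl hd)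
    · have hmem : b ∈ E ∩ ⋃₀ 𝒥i := by
        refine ⟨hb, ?_⟩
        have hGo : IsOpen (f ⁻¹' (closure S)ᶜ) := (isClosed_closure.isOpen_compl).preimage hf
        exact ⟨(f ⁻¹' (closure S)ᶜ).ordConnectedComponent b, ⟨isOpen_occ hGo b, inferInstance,
          ordConnectedComponent_subset⟩, self_mem_ordConnectedComponent.2 hbcl⟩
      obtain ⟨J, hJK, hbJ⟩ := hKi3 hmem
      obtain ⟨hJo, hJc, hJG⟩ := hKi1 hJK
      have haJ : a ∉ J := fun haJ => hJG haJ (subset_closure haS)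
      obtain ⟨d, hd⟩ := hGLB J ⟨b, hbJ⟩
      refine ⟨d, ⟨hd.2 ?_, hd.1 hbJ⟩, ?_⟩
      · intro x hx
        by_contra hax
        push Not at hax
        exact haJ (hJc.out hx hbJ ⟨hax.le, hab.le⟩)
      · exact mem_biUnion (Or.inr hJK) (Or.inr hd)

theorem main_aux [T2Space Y] {f : L → Y} (hf : Continuous f) {E : Set L}
    (hE : IsClosed E) (hEs : f '' E = Set.univ) (hccc : CCC E) (hP : ∀ S : Set Y, PropP S) :
    MetrizableSpace Y := by
  classical
  by_contra hmet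
  have hD : ∀ D : Set (L × L), D.Countable → ∃ p : L × L, p.1 ∈ E ∧ p.2 ∈ E ∧ p.1 < p.2 ∧
      f p.1 ≠ f p.2 ∧ ∀ q ∈ D, q.1 ∉ Icc p.1 p.2 ∧ q.2 ∉ Icc p.1 p.2 := by
    intro D hDc
    by_contra hcon
    push Not at hcon
    apply hmet
    apply metrizable_of_countable hf hE hEs (D := Prod.fst '' D ∪ Prod.snd '' D)
      ((hDc.image _).union (hDc.image _))
    intro a ha b hb hab hemp
    by_contra hne
    obtain ⟨q, hq, hq'⟩ := hcon (a, b) ha hb hab hne
    rw [eq_empty_iff_forall_notMem] at hemp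
    by_cases h1 : q.1 ∈ Icc a b
    · exact hemp q.1 ⟨h1, Or.inl ⟨q, hq, rfl⟩⟩
    · exact hemp q.2 ⟨hq' h1, Or.inr ⟨q, hq, rfl⟩⟩
  obtain ⟨F, hF⟩ := exists_omega1_seq hD
  have hFa : ∀ i, (F i).1 ∈ E := fun i => (hF i).1
  have hFb : ∀ i, (F i).2 ∈ E := fun i => (hF i).2.1
  have hFlt : ∀ i, (F i).1 < (F i).2 := fun i => (hF i).2.2.1
  have hFne : ∀ i, f (F i).1 ≠ f (F i).2 := fun i => (hF i).2.2.2.1
  have hFnot : ∀ i j, j < i → (F j).1 ∉ Icc (F i).1 (F i).2 := fun i j hj =>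
    ((hF i).2.2.2.2 _ ⟨j, hj, rfl⟩).1
  -- each point lies in countably many intervals
  have hcount : ∀ d : L, {i | d ∈ Icc (F i).1 (F i).2}.Countable := by
    intro d
    set A := {i | d ∈ Icc (F i).1 (F i).2} with hA
    have hmono : ∀ i ∈ A, ∀ j ∈ A, j < i → (F j).1 < (F i).1 := by
      intro i hi j hj hji
      have h1 := hFnot i j hji
      by_contra hcon
      push Not at hcon
      exact h1 ⟨hcon, hj.1.trans hi.2⟩
    obtain ⟨C, hC1, hC2, hC3⟩ := exists_countable_cofinal hccc (R := (fun i => (F i).1) '' A)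
      (by rintro _ ⟨i, -, rfl⟩; exact hFa i)
    have hinj : InjOn (fun i => (F i).1) A := by
      intro i hi j hj hij
      simp only at hij
      rcases lt_trichotomy i j with h | h | h
      · exact absurd hij (hmono j hj i hi h).ne
      · exact h
      · exact absurd hij (hmono i hi j hj h).ne'
    set A' := {i ∈ A | (F i).1 ∈ C} with hA'
    have hA'c : A'.Countable := by
      have hmaps : MapsTo (fun i => (F i).1) A' C := fun i hi => hi.2
      exact hmaps.countable_of_injOn (hinj.mono fun i hi => hi.1) hC2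
    have hsub : A ⊆ ⋃ i ∈ A', Iic i := by
      intro i hi
      obtain ⟨c, hc, hic⟩ := hC3 _ ⟨i, hi, rfl⟩
      obtain ⟨j, hj, rfl⟩ := hC1 hc
      refine mem_biUnion (⟨hj, hc⟩ : j ∈ A') ?_
      by_contra hcon
      rw [mem_Iic, not_le] at hcon
      exact absurd hic (not_le.2 (hmono i hi j hj hcon))
    exact (hA'c.biUnion fun i _ => Iic_countable i).mono hsub
  -- an injection of the endpoints into the Cantor set
  set Z : Set Y := range (fun i => f (F i).1) ∪ range (fun i => f (F i).2) with hZ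
  have hZe : ∃ e : Y → (ℕ → Bool), InjOn e Z := by
    have hcard : #((ℵ_ 1 : Cardinal.{0}).ord.ToType ⊕ (ℵ_ 1 : Cardinal.{0}).ord.ToType) ≤
        #(ℕ → Bool) := by
      rw [mk_sum, mk_ord_toType]
      simp only [lift_id]
      rw [add_eq_self (aleph0_le_aleph 1)]
      calc ℵ_ 1 ≤ 𝔠 := aleph_one_le_continuum
        _ = #(ℕ → Bool) := by simp
    obtain ⟨g⟩ := hcard
    set s : ((ℵ_ 1 : Cardinal.{0}).ord.ToType ⊕ (ℵ_ 1 : Cardinal.{0}).ord.ToType) → Y :=
      Sum.elim (fun i => f (F i).1) (fun i => f (F i).2) with hs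
    have hsZ : ∀ z ∈ Z, ∃ w, s w = z := by
      rintro z (⟨i, rfl⟩ | ⟨i, rfl⟩)
      · exact ⟨Sum.inl i, rfl⟩
      · exact ⟨Sum.inr i, rfl⟩
    refine ⟨fun y => if hy : y ∈ Z then g (hsZ y hy).choose else fun _ => false, ?_⟩
    intro y hy z hz hyz
    simp only [dif_pos hy, dif_pos hz] at hyz
    have h1 := g.injective hyz
    rw [← (hsZ y hy).choose_spec, ← (hsZ z hz).choose_spec, h1]
  obtain ⟨e, he⟩ := hZe
  have hS : ∀ q : ℕ × Bool, ∃ D : Set L, D.Countable ∧ ∀ a ∈ E, ∀ b ∈ E, a < b →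
      f a ∈ {y | e y q.1 = q.2} → f b ∉ {y | e y q.1 = q.2} → (Icc a b ∩ D).Nonempty :=
    fun q => lemmaS hf hccc (hP _)
  choose D hDc hDp using hS
  have hbad : {i | ∃ d ∈ ⋃ q, D q, d ∈ Icc (F i).1 (F i).2}.Countable := by
    have : {i | ∃ d ∈ ⋃ q, D q, d ∈ Icc (F i).1 (F i).2} =
        ⋃ d ∈ ⋃ q, D q, {i | d ∈ Icc (F i).1 (F i).2} := by
      ext i
      simp only [mem_ofPred_eq, mem_iUnion, exists_prop]
    rw [this]
    exact (countable_iUnion hDc).biUnion fun d _ => hcount d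
  have hall : {i | ∃ d ∈ ⋃ q, D q, d ∈ Icc (F i).1 (F i).2} = Set.univ := by
    rw [eq_univ_iff_forall]
    intro i
    have h1 : e (f (F i).1) ≠ e (f (F i).2) := by
      intro h
      exact hFne i (he (Or.inl ⟨i, rfl⟩) (Or.inr ⟨i, rfl⟩) h)
    obtain ⟨n, hn⟩ := Function.ne_iff.1 h1
    obtain ⟨d, hd1, hd2⟩ := hDp (n, e (f (F i).1) n) _ (hFa i) _ (hFb i) (hFlt i) rfl
      (fun h => hn (by exact h.symm))
    exact ⟨d, mem_iUnion.2 ⟨_, hd2⟩, hd1⟩
  rw [hall] at hbad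
  exact not_countable_I hbad

theorem main [PreconnectedSpace L] [T2Space Y] (f : L → Y) (hf : Continuous f)
    (hs : Function.Surjective f) (hp : ∀ S : Set Y, IsPSpace S) : MetrizableSpace Y := by
  have hYc : CompactSpace Y := by
    constructor
    rw [← hs.range_eq]
    exact isCompact_range hf
  have hP : ∀ S : Set Y, PropP S := fun S => propP_of_isPSpace S (hp S)
  obtain ⟨E, hE, hEs, hirr⟩ := exists_irred hf hs
  have hccc : CCC E := ccc_of_irred hf (fun 𝒰 h1 h2 h3 => ccc_image hf hs hP 𝒰 h1 h2 h3)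
    hE hEs hirr
  exact main_aux hf hE hEs hccc hP

end Pool.Agent.Lib.MP_250825_gt
end
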